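import Pool.Agent.H972.WG.Final

/-!
# Product inequality for determinants of Wishart diagonal blocks

For the Wishart law `W_p(α, S)` with `p = p_1 + ... + p_d`, real `α > p - 1` and `S` positive
definite, the disjoint diagonal blocks satisfy `E ∏ |X_kk|^(ν_k) ≥ ∏ E |X_kk|^(ν_k)` for all real
exponents `ν_k ≥ 0`.

Idea of the proof: peel off one column of the tilted block at a time; given the other columns, the
conditional expectation of the product of the remaining determinant powers is a radial
subharmonic function of the component orthogonal to the previous columns (an integration by parts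
argument covers real degrees of freedom), hence it increases with the length of that component and
Chebyshev's association inequality applies. For two blocks a direct monotonicity argument is used.
-/

set_option autoImplicit false
open MeasureTheory ProbabilityTheory Matrix

namespace Pool.Agent.Results.MP_9d9c13_pr.ProductInequality

open Pool.Agent.H972.WG

/-- The product inequality for the determinants of the diagonal blocks of a Wishart matrix. The
index set of the matrix is `(k : Fin d) × Fin (p k)`, so that block `k` consists of the indices
`⟨k, i⟩`; `wishart α S` is the Wishart law in the coordinates `x s(i,j)`, `symMat x` the matrix. -/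
theorem result (d : ℕ) (p : Fin d → ℕ) (hd : 1 ≤ d) (hp : ∀ k, 1 ≤ p k) (α : ℝ)
    (hα : (∑ k, (p k : ℝ)) - 1 < α)
    (S : Matrix ((k : Fin d) × Fin (p k)) ((k : Fin d) × Fin (p k)) ℝ) (hS : S.PosDef) :
    IsProbabilityMeasure (wishart α S) ∧
    ∀ ν : Fin d → ℝ, (∀ k, 0 ≤ ν k) →
      (∀ k, Integrable (fun x => ((symMat x).submatrix (Sigma.mk k) (Sigma.mk k)).det ^ ν k)
        (wishart α S)) ∧
      Integrable (fun x => ∏ k, ((symMat x).submatrix (Sigma.mk k) (Sigma.mk k)).det ^ ν k)
        (wishart α S) ∧
      ∏ k, ∫ x, ((symMat x).submatrix (Sigma.mk k) (Sigma.mk k)).det ^ ν k ∂(wishart α S) ≤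
        ∫ x, ∏ k, ((symMat x).submatrix (Sigma.mk k) (Sigma.mk k)).det ^ ν k ∂(wishart α S) :=
  final_holds d p hd hp α hα S hS

end Pool.Agent.Results.MP_9d9c13_pr.ProductInequality
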